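import Pool.Agent.Helper21.PS.Basic

/-!
# MP_8013d7_co, module RG: almost all graphs are good
-/

set_option autoImplicit false

namespace PS

open SimpleGraph Finset Pool.Agent.Helper37.PathSys
open Pool.Agent.Helper37.PathSys.PathSystem
open Filter Topology

open scoped Classical

noncomputable section

variable {n : ℕ}

/-- the factor of the vertex `h` -/
def rgf (c : Bool → Bool → ℝ) (u v h : Fin n) (G : SimpleGraph (Fin n)) : ℝ :=
  c (decide (G.Adj u h)) (decide (G.Adj v h))

lemma rg_sum_fac (c : Bool → Bool → ℝ) {u v h : Fin n} (huv : u ≠ v) (hu : h ≠ u) (hv : h ≠ v)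
    (g : SimpleGraph (Fin n) → ℝ)
    (hg1 : ∀ G, g (symmDiff G (SimpleGraph.edge u h)) = g G)
    (hg2 : ∀ G, g (symmDiff G (SimpleGraph.edge v h)) = g G) :
    ∑ G, rgf c u v h G * g G =
      (c true true + c true false + c false true + c false false) / 4 * ∑ G, g G := by
  set E1 := SimpleGraph.edge u h with hE1
  set E2 := SimpleGraph.edge v h with hE2
  set φ : SimpleGraph (Fin n) → ℝ := fun G => rgf c u v h G * g G with hφ
  have h1 : ∑ G, φ (symmDiff G E1) = ∑ G, φ G := sum_toggle E1 φ
  have h2 : ∑ G, φ (symmDiff G E2) = ∑ G, φ G := sum_toggle E2 φ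
  have h3 : ∑ G, φ (symmDiff (symmDiff G E1) E2) = ∑ G, φ G := by
    rw [sum_toggle E1 (fun G => φ (symmDiff G E2)), h2]
  have h4 : ∀ G, φ G + φ (symmDiff G E1) + φ (symmDiff G E2) +
      φ (symmDiff (symmDiff G E1) E2) =
      (c true true + c true false + c false true + c false false) * g G := by
    intro G
    simp only [hφ, hg1, hg2]
    have a1 : E1.Adj u h := (edge_adj' hu.symm).2 (Or.inl ⟨rfl, rfl⟩)
    have a2 : ¬ E1.Adj v h := by
      rw [edge_adj' hu.symm]
      rintro (⟨h', _⟩ | ⟨h', _⟩)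
      · exact huv h'.symm
      · exact hv h'.symm
    have a3 : E2.Adj v h := (edge_adj' hv.symm).2 (Or.inl ⟨rfl, rfl⟩)
    have a4 : ¬ E2.Adj u h := by
      rw [edge_adj' hv.symm]
      rintro (⟨h', _⟩ | ⟨h', _⟩)
      · exact huv h'
      · exact hu h'.symm
    unfold rgf
    simp only [toggle_adj, a1, a2, a3, a4, iff_true, iff_false, not_not]
    by_cases b1 : G.Adj u h <;> by_cases b2 : G.Adj v h <;> simp [b1, b2] <;> ring
  have h5 : 4 * ∑ G, φ G =
      (c true true + c true false + c false true + c false false) * ∑ G, g G := by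
    rw [Finset.mul_sum (s := univ) (f := g), ← Finset.sum_congr rfl (fun G _ => h4 G)]
    rw [Finset.sum_add_distrib, Finset.sum_add_distrib, Finset.sum_add_distrib, h1, h2, h3]
    ring
  linarith

lemma rg_sum_prod (c : Bool → Bool → ℝ) {u v : Fin n} (huv : u ≠ v) (S : Finset (Fin n))
    (hu : u ∉ S) (hv : v ∉ S) :
    ∑ G : SimpleGraph (Fin n), ∏ h ∈ S, rgf c u v h G =
      ((c true true + c true false + c false true + c false false) / 4) ^ S.card *
        (Fintype.card (SimpleGraph (Fin n)) : ℝ) := by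
  induction S using Finset.induction_on with
  | empty => simp
  | insert h S hhS ih =>
    rw [mem_insert, not_or] at hu hv
    simp only [Finset.prod_insert hhS]
    have inv : ∀ (a : Fin n), (a = u ∨ a = v) → ∀ G : SimpleGraph (Fin n),
        ∏ x ∈ S, rgf c u v x (symmDiff G (SimpleGraph.edge a h)) = ∏ x ∈ S, rgf c u v x G := by
      intro a ha G
      refine Finset.prod_congr rfl fun x hx => ?_
      have hxh : x ≠ h := fun h' => hhS (h' ▸ hx)
      have hah : a ≠ h := by
        rcases ha with rfl | rfl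
        · exact hu.1
        · exact hv.1
      have b1 : ¬ (SimpleGraph.edge a h).Adj u x := by
        rw [edge_adj' hah]
        rintro (⟨_, h'⟩ | ⟨h', _⟩)
        · exact hxh h'
        · exact hu.1 h'
      have b2 : ¬ (SimpleGraph.edge a h).Adj v x := by
        rw [edge_adj' hah]
        rintro (⟨_, h'⟩ | ⟨h', _⟩)
        · exact hxh h'
        · exact hv.1 h'
      unfold rgf
      simp only [toggle_adj, b1, b2, iff_false, not_not]
    rw [rg_sum_fac c huv (Ne.symm hu.1) (Ne.symm hv.1) (fun G => ∏ x ∈ S, rgf c u v x G)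
      (inv u (Or.inl rfl)) (inv v (Or.inr rfl)), ih hu.2 hv.2, card_insert_of_notMem hhS]
    ring

/-- number of vertices of `S` of the type `f` -/
def rgc (f : Bool → Bool → Bool) (u v : Fin n) (S : Finset (Fin n)) (G : SimpleGraph (Fin n)) :
    ℕ := (S.filter fun h => f (decide (G.Adj u h)) (decide (G.Adj v h)) = true).card

lemma rg_prod (f : Bool → Bool → Bool) (θ : ℝ) (u v : Fin n) (S : Finset (Fin n))
    (G : SimpleGraph (Fin n)) :
    ∏ h ∈ S, rgf (fun a b => if f a b then Real.exp θ else 1) u v h G =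
      Real.exp (θ * rgc f u v S G) := by
  unfold rgf rgc
  rw [Finset.prod_ite]
  simp only [prod_const, one_pow, mul_one]
  rw [← Real.exp_nat_mul]
  congr 1
  ring

/-- Chernoff bound -/
lemma rg_chernoff (f : Bool → Bool → Bool) (p : ℝ)
    (hp : ∀ z : ℝ, ((if f true true then z else 1) + (if f true false then z else 1) +
      (if f false true then z else 1) + (if f false false then z else 1)) / 4 =
        1 + p * (z - 1)) (hp0 : 0 ≤ p) {u v : Fin n} (huv : u ≠ v)
    (S : Finset (Fin n)) (hu : u ∉ S) (hv : v ∉ S) (θ : ℝ) (hθ : |θ| ≤ 1) (a : ℝ) :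
    ((univ.filter fun G : SimpleGraph (Fin n) => θ * a ≤ θ * rgc f u v S G).card : ℝ) ≤
      Real.exp (-(θ * a) + p * (θ + θ ^ 2) * S.card) *
        (Fintype.card (SimpleGraph (Fin n)) : ℝ) := by
  have h1 := rg_sum_prod (fun a b => if f a b then Real.exp θ else 1) huv S hu hv
  simp only [rg_prod] at h1
  rw [hp] at h1
  have h2 : ((univ.filter fun G : SimpleGraph (Fin n) =>
      θ * a ≤ θ * rgc f u v S G).card : ℝ) * Real.exp (θ * a) ≤
      ∑ G : SimpleGraph (Fin n), Real.exp (θ * rgc f u v S G) := by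
    calc ((univ.filter fun G : SimpleGraph (Fin n) =>
          θ * a ≤ θ * rgc f u v S G).card : ℝ) * Real.exp (θ * a)
        = ∑ G ∈ univ.filter (fun G : SimpleGraph (Fin n) => θ * a ≤ θ * rgc f u v S G),
          Real.exp (θ * a) := by rw [Finset.sum_const, nsmul_eq_mul]
      _ ≤ ∑ G ∈ univ.filter (fun G : SimpleGraph (Fin n) => θ * a ≤ θ * rgc f u v S G),
          Real.exp (θ * rgc f u v S G) := by
          refine Finset.sum_le_sum fun G hG => ?_
          rw [mem_filter] at hG
          exact Real.exp_le_exp.2 hG.2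
      _ ≤ ∑ G : SimpleGraph (Fin n), Real.exp (θ * rgc f u v S G) := by
          apply Finset.sum_le_sum_of_subset_of_nonneg (filter_subset _ _)
          intro G _ _
          exact (Real.exp_pos _).le
  rw [h1] at h2
  have h3 : Real.exp θ - 1 ≤ θ + θ ^ 2 := by
    have := Real.abs_exp_sub_one_sub_id_le hθ
    have := (abs_le.1 this).2
    linarith
  have h4 : 0 ≤ 1 + p * (Real.exp θ - 1) := by
    rw [← hp (Real.exp θ)]
    have : 0 < Real.exp θ := Real.exp_pos θ
    split_ifs <;> positivity
  have h5 : (1 + p * (Real.exp θ - 1)) ^ S.card ≤ Real.exp (p * (θ + θ ^ 2) * S.card) := by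
    calc (1 + p * (Real.exp θ - 1)) ^ S.card ≤ (Real.exp (p * (θ + θ ^ 2))) ^ S.card := by
          apply pow_le_pow_left₀ h4
          calc 1 + p * (Real.exp θ - 1) ≤ 1 + p * (θ + θ ^ 2) := by
                have := mul_le_mul_of_nonneg_left h3 hp0
                linarith
            _ ≤ Real.exp (p * (θ + θ ^ 2)) := by
                have := Real.add_one_le_exp (p * (θ + θ ^ 2))
                linarith
      _ = Real.exp (p * (θ + θ ^ 2) * S.card) := by
          rw [← Real.exp_nat_mul]
          congr 1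
          ring
  have h6 : (0 : ℝ) ≤ (Fintype.card (SimpleGraph (Fin n)) : ℝ) := Nat.cast_nonneg _
  have h7 : Real.exp (-(θ * a)) * Real.exp (θ * a) = 1 := by
    rw [← Real.exp_add]
    simp
  calc ((univ.filter fun G : SimpleGraph (Fin n) => θ * a ≤ θ * rgc f u v S G).card : ℝ)
      = Real.exp (-(θ * a)) * (((univ.filter fun G : SimpleGraph (Fin n) =>
          θ * a ≤ θ * rgc f u v S G).card : ℝ) * Real.exp (θ * a)) := by
        rw [mul_comm _ (Real.exp (θ * a)), ← mul_assoc, h7, one_mul]
    _ ≤ Real.exp (-(θ * a)) * ((1 + p * (Real.exp θ - 1)) ^ S.card *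
          (Fintype.card (SimpleGraph (Fin n)) : ℝ)) :=
        mul_le_mul_of_nonneg_left h2 (Real.exp_pos _).le
    _ ≤ Real.exp (-(θ * a)) * (Real.exp (p * (θ + θ ^ 2) * S.card) *
          (Fintype.card (SimpleGraph (Fin n)) : ℝ)) := by
        gcongr
    _ = _ := by rw [Real.exp_add]; ring

/-- upper deviations -/
lemma rg_upper (f : Bool → Bool → Bool) (p : ℝ)
    (hp : ∀ z : ℝ, ((if f true true then z else 1) + (if f true false then z else 1) +
      (if f false true then z else 1) + (if f false false then z else 1)) / 4 =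
        1 + p * (z - 1)) (hp0 : 0 ≤ p) (hp1 : p ≤ 1) {u v : Fin n} (huv : u ≠ v)
    (δ : ℝ) (hδ : 0 < δ) (hδ1 : δ ≤ 1) :
    ((univ.filter fun G : SimpleGraph (Fin n) =>
      (p + δ) * n < rgc f u v univ G).card : ℝ) ≤
      Real.exp (-(δ ^ 2 * n / 4) + δ) * (Fintype.card (SimpleGraph (Fin n)) : ℝ) := by
  set S : Finset (Fin n) := ((univ : Finset (Fin n)).erase u).erase v with hS
  have hu : u ∉ S := by simp [hS]
  have hv : v ∉ S := by simp [hS]
  have hScard : (S.card : ℝ) ≤ n := by
    have : S.card ≤ n := by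
      have := card_le_univ S
      rwa [Fintype.card_fin] at this
    exact_mod_cast this
  have hθ : |δ / 2| ≤ 1 := by
    rw [abs_of_nonneg (by linarith)]
    linarith
  have h1 := rg_chernoff f p hp hp0 huv S hu hv (δ / 2) hθ ((p + δ) * n - 2)
  have h2 : (univ.filter fun G : SimpleGraph (Fin n) => (p + δ) * n < rgc f u v univ G) ⊆
      (univ.filter fun G : SimpleGraph (Fin n) =>
        δ / 2 * ((p + δ) * n - 2) ≤ δ / 2 * rgc f u v S G) := by
    intro G hG
    rw [mem_filter] at hG ⊢
    refine ⟨mem_univ _, ?_⟩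
    have h3 : (rgc f u v univ G : ℝ) ≤ rgc f u v S G + 2 := by
      have h4 : (univ.filter fun h => f (decide (G.Adj u h)) (decide (G.Adj v h)) = true) ⊆
          (S.filter fun h => f (decide (G.Adj u h)) (decide (G.Adj v h)) = true) ∪ {u, v} := by
        intro x hx
        rw [mem_filter] at hx
        rw [mem_union, mem_filter]
        by_cases hxu : x = u
        · right; simp [hxu]
        · by_cases hxv : x = v
          · right; simp [hxv]
          · left
            exact ⟨by simp [hS, hxu, hxv], hx.2⟩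
      have h5 := (card_le_card h4).trans (card_union_le _ _)
      have h6 : ({u, v} : Finset (Fin n)).card ≤ 2 := card_le_two
      have h7 : rgc f u v univ G ≤ rgc f u v S G + 2 := h5.trans (Nat.add_le_add_left h6 _)
      exact_mod_cast h7
    have h4 : (p + δ) * n - 2 ≤ (rgc f u v S G : ℝ) := by
      have := hG.2
      linarith
    exact mul_le_mul_of_nonneg_left h4 (by linarith)
  have h3 : (((univ.filter fun G : SimpleGraph (Fin n) =>
      (p + δ) * n < rgc f u v univ G).card : ℕ) : ℝ) ≤
      ((univ.filter fun G : SimpleGraph (Fin n) =>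
        δ / 2 * ((p + δ) * n - 2) ≤ δ / 2 * rgc f u v S G).card : ℝ) := by
    exact_mod_cast card_le_card h2
  refine h3.trans (h1.trans ?_)
  apply mul_le_mul_of_nonneg_right _ (Nat.cast_nonneg _)
  apply Real.exp_le_exp.2
  have hn : (0 : ℝ) ≤ n := Nat.cast_nonneg n
  have h4 : p * (δ / 2 + (δ / 2) ^ 2) * S.card ≤ p * (δ / 2 + (δ / 2) ^ 2) * n := by
    gcongr
  have h5 : p * (δ / 2) ^ 2 * n ≤ (δ / 2) ^ 2 * n := by
    have : 0 ≤ (δ / 2) ^ 2 * n := by positivity
    nlinarith
  nlinarith

/-- lower deviations -/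
lemma rg_lower {u v : Fin n} (huv : u ≠ v) (H : Finset (Fin n))
    (δ : ℝ) (hδ : 0 < δ) (hδ1 : δ ≤ 1) :
    ((univ.filter fun G : SimpleGraph (Fin n) =>
      (rgc and u v H G : ℝ) < (1 / 4 - δ) * H.card).card : ℝ) ≤
      Real.exp (-(7 / 16 * δ ^ 2 * H.card) + δ / 4) *
        (Fintype.card (SimpleGraph (Fin n)) : ℝ) := by
  set S : Finset (Fin n) := (H.erase u).erase v with hS
  have hu : u ∉ S := by simp [hS]
  have hv : v ∉ S := by simp [hS]
  have hScard : (H.card : ℝ) - 2 ≤ S.card := by
    have h1 := Finset.pred_card_le_card_erase (s := H) (a := u)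
    have h2 : (H.erase u).card - 1 ≤ S.card := Finset.pred_card_le_card_erase
    have h3 : H.card ≤ S.card + 2 := by omega
    have h4 : (H.card : ℝ) ≤ S.card + 2 := by exact_mod_cast h3
    linarith
  have hθ : |-(δ / 2)| ≤ 1 := by
    rw [abs_neg, abs_of_nonneg (by linarith)]
    linarith
  have hp : ∀ z : ℝ, ((if and true true then z else 1) + (if and true false then z else 1) +
      (if and false true then z else 1) + (if and false false then z else 1)) / 4 =
        1 + (1 / 4 : ℝ) * (z - 1) := by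
    intro z
    simp
    ring
  have h1 := rg_chernoff and (1 / 4) hp (by norm_num) huv S hu hv (-(δ / 2)) hθ
    ((1 / 4 - δ) * H.card)
  have h2 : (univ.filter fun G : SimpleGraph (Fin n) =>
      (rgc and u v H G : ℝ) < (1 / 4 - δ) * H.card) ⊆
      (univ.filter fun G : SimpleGraph (Fin n) =>
        -(δ / 2) * ((1 / 4 - δ) * H.card) ≤ -(δ / 2) * rgc and u v S G) := by
    intro G hG
    rw [mem_filter] at hG ⊢
    refine ⟨mem_univ _, ?_⟩
    have h3 : (rgc and u v S G : ℝ) ≤ rgc and u v H G := by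
      have : rgc and u v S G ≤ rgc and u v H G := by
        unfold rgc
        apply card_le_card
        apply filter_subset_filter
        exact (erase_subset _ _).trans (erase_subset _ _)
      exact_mod_cast this
    have h4 : (rgc and u v S G : ℝ) ≤ (1 / 4 - δ) * H.card := by
      have := hG.2
      linarith
    nlinarith
  have h3 : (((univ.filter fun G : SimpleGraph (Fin n) =>
      (rgc and u v H G : ℝ) < (1 / 4 - δ) * H.card).card : ℕ) : ℝ) ≤
      ((univ.filter fun G : SimpleGraph (Fin n) =>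
        -(δ / 2) * ((1 / 4 - δ) * H.card) ≤ -(δ / 2) * rgc and u v S G).card : ℝ) := by
    exact_mod_cast card_le_card h2
  refine h3.trans (h1.trans ?_)
  apply mul_le_mul_of_nonneg_right _ (Nat.cast_nonneg _)
  apply Real.exp_le_exp.2
  have hH : (0 : ℝ) ≤ H.card := Nat.cast_nonneg _
  have h4 : (δ / 2 - (δ / 2) ^ 2) * ((H.card : ℝ) - 2) ≤ (δ / 2 - (δ / 2) ^ 2) * S.card := by
    apply mul_le_mul_of_nonneg_left hScard
    nlinarith
  nlinarith [sq_nonneg δ]

lemma rg_NF (G : SimpleGraph (Fin n)) (x v : Fin n) :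
    (dg G x) = rgc (fun a _ => a) x v univ G := by
  unfold dg NF rgc
  congr 1
  ext u
  simp

lemma rg_union (G : SimpleGraph (Fin n)) (x y : Fin n) :
    (NF G x ∪ NF G y).card = rgc or x y univ G := by
  unfold NF rgc
  congr 1
  ext u
  simp

lemma rg_inter (G : SimpleGraph (Fin n)) (x y : Fin n) :
    (NF G x ∩ NF G y).card = rgc and x y univ G := by
  unfold NF rgc
  congr 1
  ext u
  simp

lemma rg_common (G : SimpleGraph (Fin n)) (H : Finset (Fin n)) (x y : Fin n) :
    (common G H x y).card = rgc and x y H G := by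
  unfold common rgc
  congr 1
  ext u
  simp

lemma H0_card {h : ℕ} (hn : h ≤ n) : (H0 n h).card = h := by
  unfold H0
  have h1 : (univ.filter fun i : Fin n => i.val < h) =
      (univ : Finset (Fin h)).map (Fin.castLEEmb hn) := by
    ext i
    simp only [mem_filter, mem_univ, true_and, Finset.mem_map]
    constructor
    · intro hi
      exact ⟨⟨i.val, hi⟩, rfl⟩
    · rintro ⟨j, rfl⟩
      exact j.2
  rw [h1, card_map, card_univ, Fintype.card_fin]

/-- few graphs are not good -/
lemma rg_bad (hn2 : 2 ≤ n) (h : ℕ) (hh : h ≤ n) (δ : ℝ) (hδ : 0 < δ) (hδ1 : δ ≤ 1) (b : ℝ)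
    (hb1 : b ≤ δ ^ 2 * n / 4 - δ) (hb2 : b ≤ 7 / 16 * δ ^ 2 * h - δ / 4) :
    ((univ.filter fun G : SimpleGraph (Fin n) => ¬ GoodG δ h G).card : ℝ) ≤
      4 * (n : ℝ) ^ 2 * Real.exp (-b) * (Fintype.card (SimpleGraph (Fin n)) : ℝ) := by
  set T : Finset (Fin n × Fin n) := univ.filter fun p => p.1 ≠ p.2 with hT
  set B : Fin 4 → Fin n × Fin n → Finset (SimpleGraph (Fin n)) := fun i p =>
    if i = 0 then univ.filter fun G => (1 / 2 + δ) * n < rgc (fun a _ => a) p.1 p.2 univ G
    else if i = 1 then univ.filter fun G => (3 / 4 + δ) * n < rgc or p.1 p.2 univ G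
    else if i = 2 then univ.filter fun G => (1 / 4 + δ) * n < rgc and p.1 p.2 univ G
    else univ.filter fun G => (rgc and p.1 p.2 (H0 n h) G : ℝ) < (1 / 4 - δ) * (H0 n h).card
    with hB
  have hH := H0_card hh
  have h1 : (univ.filter fun G : SimpleGraph (Fin n) => ¬ GoodG δ h G) ⊆
      ((univ : Finset (Fin 4)) ×ˢ T).biUnion fun q => B q.1 q.2 := by
    intro G hG
    rw [mem_filter] at hG
    by_contra hcon
    apply hG.2
    have hno : ∀ (i : Fin 4) (x y : Fin n), x ≠ y → G ∉ B i (x, y) := by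
      intro i x y hxy hmem
      apply hcon
      rw [mem_biUnion]
      exact ⟨(i, (x, y)), by simp [hT, hxy], hmem⟩
    constructor
    · intro x
      obtain ⟨y, hy⟩ : ∃ y : Fin n, x ≠ y := by
        have : Nontrivial (Fin n) := Fin.nontrivial_iff_two_le.2 hn2
        obtain ⟨y, hy⟩ := exists_ne x
        exact ⟨y, hy.symm⟩
      have := hno 0 x y hy
      simp only [hB, if_true, mem_filter, mem_univ, true_and, not_lt] at this
      rw [rg_NF G x y]
      exact this
    · intro x y hxy
      have := hno 1 x y hxy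
      simp only [hB, if_true, mem_filter, mem_univ, true_and, not_lt,
        show (1 : Fin 4) ≠ 0 by decide, if_false] at this
      rw [rg_union]
      exact this
    · intro x y hxy
      have := hno 2 x y hxy
      simp only [hB, if_true, mem_filter, mem_univ, true_and, not_lt,
        show (2 : Fin 4) ≠ 0 by decide, show (2 : Fin 4) ≠ 1 by decide, if_false] at this
      rw [rg_inter]
      exact this
    · intro x y hxy
      have := hno 3 x y hxy
      simp only [hB, mem_filter, mem_univ, true_and, not_lt,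
        show (3 : Fin 4) ≠ 0 by decide, show (3 : Fin 4) ≠ 1 by decide,
        show (3 : Fin 4) ≠ 2 by decide, if_false] at this
      rw [rg_common]
      rw [hH] at this
      exact this
  have h2 : ∀ q ∈ (univ : Finset (Fin 4)) ×ˢ T, ((B q.1 q.2).card : ℝ) ≤
      Real.exp (-b) * (Fintype.card (SimpleGraph (Fin n)) : ℝ) := by
    rintro ⟨i, x, y⟩ hq
    simp only [hT, mem_product, mem_univ, true_and, mem_filter] at hq
    have hc : (0 : ℝ) ≤ (Fintype.card (SimpleGraph (Fin n)) : ℝ) := Nat.cast_nonneg _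
    have e1 : Real.exp (-(δ ^ 2 * n / 4) + δ) ≤ Real.exp (-b) := by
      apply Real.exp_le_exp.2
      linarith
    have e2 : Real.exp (-(7 / 16 * δ ^ 2 * (H0 n h).card) + δ / 4) ≤ Real.exp (-b) := by
      apply Real.exp_le_exp.2
      rw [hH]
      linarith
    fin_cases i
    · simp only [hB]
      refine (rg_upper (fun a _ => a) (1 / 2) ?_ (by norm_num) (by norm_num) hq δ hδ hδ1).trans ?_
      · intro z
        simp
        ring
      · exact mul_le_mul_of_nonneg_right e1 hc
    · simp only [hB]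
      refine (rg_upper or (3 / 4) ?_ (by norm_num) (by norm_num) hq δ hδ hδ1).trans ?_
      · intro z
        simp
        ring
      · exact mul_le_mul_of_nonneg_right e1 hc
    · simp only [hB]
      refine (rg_upper and (1 / 4) ?_ (by norm_num) (by norm_num) hq δ hδ hδ1).trans ?_
      · intro z
        simp
        ring
      · exact mul_le_mul_of_nonneg_right e1 hc
    · simp only [hB]
      refine (rg_lower hq (H0 n h) δ hδ hδ1).trans ?_
      exact mul_le_mul_of_nonneg_right e2 hc
  have h3 : ((univ.filter fun G : SimpleGraph (Fin n) => ¬ GoodG δ h G).card : ℝ) ≤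
      ∑ q ∈ (univ : Finset (Fin 4)) ×ˢ T, ((B q.1 q.2).card : ℝ) := by
    exact_mod_cast (card_le_card h1).trans card_biUnion_le
  refine h3.trans ((Finset.sum_le_card_nsmul _ _ _ h2).trans ?_)
  rw [nsmul_eq_mul, ← mul_assoc]
  apply mul_le_mul_of_nonneg_right _ (Nat.cast_nonneg _)
  apply mul_le_mul_of_nonneg_right _ (Real.exp_pos _).le
  have h4 : ((univ : Finset (Fin 4)) ×ˢ T).card ≤ 4 * n ^ 2 := by
    rw [card_product, card_univ, Fintype.card_fin]
    apply Nat.mul_le_mul_left
    refine (card_le_card (filter_subset _ _)).trans ?_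
    rw [card_univ, Fintype.card_prod, Fintype.card_fin, sq]
  exact_mod_cast h4

lemma rg_asym : ∀ᶠ n : ℕ in atTop, hh n ≤ n ∧ 0 < dl n ∧ dl n ≤ 1 ∧
    3 * Real.log n ≤ dl n ^ 2 * n / 4 - dl n ∧
    3 * Real.log n ≤ 7 / 16 * dl n ^ 2 * hh n - dl n / 4 := by
  have hlog : Tendsto (fun n : ℕ => Real.log (n : ℝ)) atTop atTop :=
    Real.tendsto_log_atTop.comp tendsto_natCast_atTop_atTop
  have hlo : ∀ᶠ n : ℕ in atTop, Real.log n ^ 2 ≤ 1 / 100 * (n : ℝ) ^ (1 / 2 : ℝ) := by
    have h1 : (fun x : ℝ => Real.log x ^ (2 : ℝ)) =o[atTop] fun x => x ^ (1 / 2 : ℝ) :=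
      isLittleO_log_rpow_rpow_atTop 2 (by norm_num)
    have h2 := (h1.bound (show (0 : ℝ) < 1 / 100 by norm_num))
    have h3 := tendsto_natCast_atTop_atTop.eventually h2
    filter_upwards [h3, eventually_ge_atTop 1] with n hn hn1
    have hn1' : (1 : ℝ) ≤ n := by exact_mod_cast hn1
    have h4 : 0 ≤ Real.log n := Real.log_nonneg hn1'
    rw [Real.norm_of_nonneg (by positivity), Real.norm_of_nonneg (by positivity)] at hn
    simpa using hn
  filter_upwards [hlo, eventually_ge_atTop 3, hlog.eventually_ge_atTop 10] with n h1 hn3 hL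
  have hn3' : (3 : ℝ) ≤ n := by exact_mod_cast hn3
  have hn0 : (0 : ℝ) < n := by linarith
  set L := Real.log n with hLdef
  set r := (n : ℝ) ^ (1 / 2 : ℝ) with hr
  have hrr : r * r = n := by
    rw [hr, ← Real.rpow_add hn0]
    norm_num
  have hd2 : dl n ^ 2 * r = 1 := by
    unfold dl
    rw [hr, ← Real.rpow_natCast, ← Real.rpow_mul hn0.le, ← Real.rpow_add hn0]
    norm_num
  have hr0 : 0 < r := Real.rpow_pos_of_pos hn0 _
  have hdpos : 0 < dl n := Real.rpow_pos_of_pos hn0 _
  have hdle : dl n ≤ 1 := by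
    unfold dl
    apply Real.rpow_le_one_of_one_le_of_nonpos (by linarith)
    norm_num
  have hd2n : dl n ^ 2 * n = r := by
    rw [← hrr, ← mul_assoc, hd2, one_mul]
  have hLL0 : 0 ≤ Real.log L := Real.log_nonneg (by linarith)
  have hLL1 : Real.log L ≤ L - 1 := Real.log_le_sub_one_of_pos (by linarith)
  have hden : 1 ≤ L - Real.log L := by linarith
  have hden2 : L - Real.log L ≤ L := by linarith
  have hhn : (hh n : ℝ) ≤ n := by
    unfold hh
    refine (Nat.floor_le (by positivity)).trans ?_
    exact div_le_self hn0.le hden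
  have hhlow : (n : ℝ) / L - 1 ≤ hh n := by
    have h2 : (n : ℝ) / (L - Real.log L) < hh n + 1 := Nat.lt_floor_add_one _
    have h3 : (n : ℝ) / L ≤ n / (L - Real.log L) := by
      apply div_le_div_of_nonneg_left hn0.le (by linarith) hden2
    linarith
  have hr100 : 100 * L ^ 2 ≤ r := by linarith
  have hL1000 : 1000 * L ≤ r := by nlinarith
  refine ⟨by exact_mod_cast hhn, hdpos, hdle, ?_, ?_⟩
  · rw [hd2n]
    linarith
  · have h4 : dl n ^ 2 * ((n : ℝ) / L - 1) ≤ dl n ^ 2 * hh n :=
      mul_le_mul_of_nonneg_left hhlow (by positivity)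
    have h5 : dl n ^ 2 * ((n : ℝ) / L - 1) = r / L - dl n ^ 2 := by
      rw [mul_sub, mul_one, ← mul_div_assoc, hd2n]
    have h6 : 100 * L ≤ r / L := by
      rw [le_div_iff₀ (by linarith)]
      linarith
    have h7 : dl n ^ 2 ≤ 1 := by nlinarith
    nlinarith

theorem good_tendsto : Tendsto (fun n : ℕ =>
    (((univ : Finset (SimpleGraph (Fin n))).filter fun G => GoodG (dl n) (hh n) G).card : ℝ) /
      (Fintype.card (SimpleGraph (Fin n)) : ℝ)) atTop (𝓝 1) := by
  have hlow : Tendsto (fun n : ℕ => 1 - 4 * ((n : ℝ))⁻¹) atTop (𝓝 1) := by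
    have h1 : Tendsto (fun n : ℕ => ((n : ℝ))⁻¹) atTop (𝓝 0) := tendsto_inv_atTop_nhds_zero_nat
    have h2 := (h1.const_mul 4).const_sub 1
    simpa using h2
  refine tendsto_of_tendsto_of_tendsto_of_le_of_le' hlow tendsto_const_nhds ?_ ?_
  · filter_upwards [rg_asym, eventually_ge_atTop 2] with n hn hn2
    obtain ⟨ha, hb, hc, hd, he⟩ := hn
    have h1 := rg_bad hn2 (hh n) ha (dl n) hb hc (3 * Real.log n) hd he
    have hn0 : (0 : ℝ) < n := by
      have : (2 : ℝ) ≤ n := by exact_mod_cast hn2
      linarith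
    have h2 : Real.exp (-(3 * Real.log n)) = ((n : ℝ) ^ 3)⁻¹ := by
      rw [Real.exp_neg, show 3 * Real.log (n : ℝ) = ((3 : ℕ) : ℝ) * Real.log n by norm_num,
        Real.exp_nat_mul, Real.exp_log hn0]
    rw [h2] at h1
    have h3 : 4 * (n : ℝ) ^ 2 * ((n : ℝ) ^ 3)⁻¹ = 4 * ((n : ℝ))⁻¹ := by
      field_simp
    rw [h3] at h1
    have hcard : (0 : ℝ) < (Fintype.card (SimpleGraph (Fin n)) : ℝ) := by
      exact_mod_cast Fintype.card_pos
    have h4 : (((univ : Finset (SimpleGraph (Fin n))).filter
        fun G => GoodG (dl n) (hh n) G).card : ℝ) +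
        ((univ.filter fun G : SimpleGraph (Fin n) => ¬ GoodG (dl n) (hh n) G).card : ℝ) =
        (Fintype.card (SimpleGraph (Fin n)) : ℝ) := by
      have := card_filter_add_card_filter_not (s := (univ : Finset (SimpleGraph (Fin n))))
        (fun G => GoodG (dl n) (hh n) G)
      rw [card_univ] at this
      exact_mod_cast this
    rw [le_div_iff₀ hcard]
    linarith
  · filter_upwards with n
    have hcard : (0 : ℝ) < (Fintype.card (SimpleGraph (Fin n)) : ℝ) := by
      exact_mod_cast Fintype.card_pos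
    rw [div_le_one hcard]
    exact_mod_cast card_le_univ _

end

end PS
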