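import Pool.Agent.Helper18.PS.St

/-! # Project PS (MP_4afa08_nt), module CLS: the classification -/

set_option autoImplicit false

namespace Pool.Agent.Helper33.PS

open Finset
open Nat (totient)
open Pool.Agent.Helper18.PS
open Pool.Agent.Helper30.LQ (StSMT)
open Pool.Agent.Helper94.DN (StRAN)

/-- Module CLS. -/
theorem hCLS (hA : StALG) (hP : StPAI) (hD : StDVD) : StCLS := by
  intro y z n hz hn hs
  by_cases h1 : ∀ l : ℕ, l.Prime → l ∣ n → l ≤ y
  · exact Or.inr (Or.inl h1)
  · rw [not_forall] at h1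
    obtain ⟨p, hp1⟩ := h1
    rw [Classical.not_imp, Classical.not_imp, not_le] at hp1
    obtain ⟨hp, hpn, hyp⟩ := hp1
    by_cases h2 : p ^ 2 ∣ n
    · exact Or.inr (Or.inr (Or.inl ⟨p, hp, hyp, h2⟩))
    · obtain ⟨m, hm⟩ := hpn
      rw [mul_comm] at hm
      have hpm : ¬ p ∣ m := by
        rintro ⟨k, hk⟩
        exact h2 ⟨k, by rw [hm, hk]; ring⟩
      have hm1 : 1 ≤ m := by
        rcases Nat.eq_zero_or_pos m with h0 | h0
        · rw [h0, zero_mul] at hm
          omega
        · exact h0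
      subst hm
      obtain ⟨A, B, hd⟩ := hA m p hm1 hp hpm hs
      by_cases h3 : ∃ l : ℕ, l.Prime ∧ z < l ∧ l ∣ A
      · obtain ⟨l, hl, hzl, hlA⟩ := h3
        rcases hP z m p A B l hz hm1 hp hpm hd hl hzl hlA with h | h
        · exact Or.inl h
        · exact Or.inr (Or.inr (Or.inr (Or.inr (Or.inr h))))
      · have h3' : ∀ l : ℕ, l.Prime → l ∣ A → l ≤ z := by
          intro l hl hlA
          by_contra hc
          exact h3 ⟨l, hl, not_le.1 hc, hlA⟩
        by_cases h4 : ∃ r : ℕ, r.Prime ∧ z < r ∧ r ∣ p + 1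
        · obtain ⟨r, hr, hzr, hrp⟩ := h4
          refine Or.inr (Or.inr (Or.inr (Or.inr (Or.inl ?_))))
          rcases hD z m p A B r hz hm1 hp hd h3' hr hzr hrp with ⟨q, hq, hqm, hrq⟩ | h
          · refine Or.inl ⟨p, q, r, hp, hq, hr, hzr, hrp, hrq, ?_⟩
            rw [mul_comm m p]
            exact mul_dvd_mul_left p hqm
          · refine Or.inr ⟨p, r, hp, hr, hzr, hrp, ?_⟩
            rw [mul_comm m p]
            exact mul_dvd_mul_left p h
        · refine Or.inr (Or.inr (Or.inr (Or.inl ⟨p, hp, hyp, dvd_mul_left p m, ?_⟩)))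
          intro r hr hrp
          by_contra hc
          exact h4 ⟨r, hr, not_le.1 hc, hrp⟩

end Pool.Agent.Helper33.PS
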